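import Pool.Agent.Helper73.RFn.GoalsI

/-!
# Project RFn, packet CON: the maximum principle results at the function level
-/

set_option autoImplicit false

open Finset Pool.Agent.Helper47.RFn Pool.Agent.Helper73.RFn

namespace Pool.Agent.Helper68.RFn.CON

theorem one_mem (n : ℕ) : (one : Ix n → Ix n → ℝ) ∈ OO n := by
  intro a b
  unfold one
  rw [Finset.sum_eq_single a]
  · simp [eq_comm]
  · intro c _ hc
    simp [Ne.symm hc]
  · simp

theorem sum_one {n : ℕ} (f : Ix n → ℝ) (a : Ix n) : ∑ i, one a i * f i = f a := by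
  unfold one
  simp

theorem abs_Pff_le {n : ℕ} (A : MF n) (x : EE n) (h : ∑ a, nfc A a x ^ 2 = 1) (a b : Ix n) :
    |Pff A a b x| ≤ 1 := by
  have h1 : ∀ c, nfc A c x ^ 2 ≤ 1 := fun c => by
    rw [← h]
    exact Finset.single_le_sum (f := fun a => nfc A a x ^ 2) (fun i _ => sq_nonneg _)
      (Finset.mem_univ c)
  unfold Pff
  split_ifs with hab
  · subst hab
    rw [abs_le]
    constructor <;> nlinarith [h1 a, sq_nonneg (nfc A a x)]
  · rw [abs_le]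
    constructor <;> nlinarith [h1 a, h1 b, sq_nonneg (nfc A a x + nfc A b x),
      sq_nonneg (nfc A a x - nfc A b x)]

theorem e2f_le {n : ℕ} (hn : 4 ≤ n) (A θ : MF n) (x : EE n) (h : ∑ a, nfc A a x ^ 2 = 1) (C : ℝ)
    (_hC : 0 < C) (hl : 0 ≤ lamf A θ x) (hR : ∀ a b c d, |Rf A θ a b c d x| ≤ C * lamf A θ x) :
    e2f A θ x ≤ ((n : ℝ) + 1) ^ 4 * (C + 2) ^ 2 * lamf A θ x ^ 2 := by
  have hE : ∀ a b c d, Ef A θ a b c d x ^ 2 ≤ ((C + 2) * lamf A θ x) ^ 2 := by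
    intro a b c d
    rw [← sq_abs]
    refine pow_le_pow_left₀ (abs_nonneg _) ?_ 2
    unfold Ef
    have hP := abs_Pff_le A x h
    have h1 : |1 / ((n : ℝ) - 1) * (lamf A θ x * (Pff A a c x * Pff A b d x -
        Pff A a d x * Pff A b c x))| ≤ 2 * lamf A θ x := by
      rw [abs_mul, abs_mul, abs_of_nonneg hl]
      have h2 : |Pff A a c x * Pff A b d x - Pff A a d x * Pff A b c x| ≤ 2 := by
        refine (abs_sub _ _).trans ?_
        rw [abs_mul, abs_mul]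
        have := mul_le_mul (hP a c) (hP b d) (abs_nonneg _) zero_le_one
        have := mul_le_mul (hP a d) (hP b c) (abs_nonneg _) zero_le_one
        linarith
      have h3 : |1 / ((n : ℝ) - 1)| ≤ 1 := by
        have : (4 : ℝ) ≤ n := by exact_mod_cast hn
        rw [abs_of_pos (by apply div_pos one_pos; linarith), div_le_one (by linarith)]
        linarith
      calc |1 / ((n : ℝ) - 1)| * (lamf A θ x * |Pff A a c x * Pff A b d x -
            Pff A a d x * Pff A b c x|) ≤ 1 * (lamf A θ x * 2) := by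
            refine mul_le_mul h3 (mul_le_mul_of_nonneg_left h2 hl) ?_ zero_le_one
            positivity
        _ = 2 * lamf A θ x := by ring
    refine (abs_sub _ _).trans ?_
    have := hR a b c d
    linarith
  unfold e2f
  calc ∑ a, ∑ b, ∑ c, ∑ d, Ef A θ a b c d x ^ 2
      ≤ ∑ a : Ix n, ∑ b : Ix n, ∑ c : Ix n, ∑ d : Ix n, ((C + 2) * lamf A θ x) ^ 2 :=
        Finset.sum_le_sum fun a _ => Finset.sum_le_sum fun b _ => Finset.sum_le_sum fun c _ =>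
          Finset.sum_le_sum fun d _ => hE a b c d
    _ = ((n : ℝ) + 1) ^ 4 * (C + 2) ^ 2 * lamf A θ x ^ 2 := by
        simp only [Finset.sum_const, Finset.card_univ, Fintype.card_fin, nsmul_eq_mul]
        push_cast
        ring

theorem fam_cont {n : ℕ} {I : Set ℝ} {f : ℝ → EE n → ℝ} (h : SmFam I f) {x : EE n} (hx : x ≠ 0) :
    ContinuousOn (fun t => f t x) I :=
  (h.cont []).comp (Continuous.prodMk_left x).continuousOn fun _ ht => ⟨ht, hx⟩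

theorem limit_le {n : ℕ} {T : ℝ} (hT : 0 < T) {f g : ℝ → EE n → ℝ} (hf : SmFam (Set.Ico 0 T) f)
    (hg : SmFam (Set.Ico 0 T) g) (C : ℝ) {x : EE n} (hx : x ≠ 0)
    (h : ∀ t, 0 < t → t < T → |f t x| ≤ C * g t x) : |f 0 x| ≤ C * g 0 x := by
  have hsub : Set.Ioo 0 T ⊆ Set.Ico 0 T := Set.Ioo_subset_Ico_self
  have m0 : (0 : ℝ) ∈ Set.Ico 0 T := ⟨le_rfl, hT⟩
  have t1 := ((fam_cont hf hx 0 m0).mono hsub).abs
  have t2 := ((fam_cont hg hx 0 m0).mono hsub).const_mul C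
  have hnb : (nhdsWithin (0 : ℝ) (Set.Ioo 0 T)).NeBot := by
    rw [← mem_closure_iff_nhdsWithin_neBot, closure_Ioo hT.ne]
    exact ⟨le_rfl, hT.le⟩
  refine le_of_tendsto_of_tendsto t1 t2 ?_
  filter_upwards [self_mem_nhdsWithin] with t ht
  exact h t ht.1 ht.2

theorem conP : ConPStmt := by
  intro MOD FLB NRO NRD P2 P3 S2 S3 FJS FHM n hn δ hδ1 hδ2
  obtain ⟨CN, hCN, hNRD⟩ := NRD n hn δ hδ1 hδ2
  obtain ⟨σ, ε, hσ0, hσ1, hε, hP2⟩ := P2 n hn
  obtain ⟨A1, hA1, hNRD⟩ := hNRD ε hε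
  obtain ⟨K0, hK0, hP2⟩ := hP2 CN A1 hCN hA1
  obtain ⟨C1, Y0, hC1, hY0, hP3⟩ := P3 n hn CN K0 σ hCN hK0 hσ0 hσ1
  obtain ⟨C2, hC2, hS3⟩ := S3 n hn
  set C : ℝ := 1 + CN + K0 + C1 + Y0 + C2 + ((n : ℝ) + 1) ^ 4 * (CN + 2) ^ 2 with hC
  have hE4 : 0 ≤ ((n : ℝ) + 1) ^ 4 * (CN + 2) ^ 2 := by positivity
  refine ⟨C, σ, by linarith, hσ0, hσ1, ?_⟩
  intro T l0 A θ hT hl0 hfl hin
  have hsub : Set.Ioo 0 T ⊆ Set.Ico 0 T := Set.Ioo_subset_Ico_self
  obtain ⟨M, hM⟩ := MOD n T hT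
  obtain ⟨hA, hθ, -⟩ := FJS n T _ A θ hT hsub hfl
  have hA' : MJ T A := fun i j => ⟨(hA i j).cd, (hA i j).hom⟩
  have hθ' : MJ T θ := fun i j => ⟨(hθ i j).cd, (hθ i j).hom⟩
  obtain ⟨-, hFull, hRF, hdic, hdicR, -, -⟩ := FLB n T hT M hM _ A θ hsub hfl hA' hθ'
  obtain ⟨hbdR, -, hbdg, -, hini, -⟩ := NRO n T hT M hM A θ hfl hA' hθ'
  obtain ⟨fh1, fh2⟩ := FHM n
  obtain ⟨hfrm, hfR, -, hfl', -⟩ := fh2 _ A θ hfl
  set F := M.flB A θ with hFdef
  have hbd : ∀ i j k l, F.Bd0 (F.R i j k l) := fun i j k l => hbdR [] i j k l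
  have hIT : IniT F δ l0 := hini δ l0 hin
  obtain ⟨hCone, hRound⟩ := hNRD T F hFull hRF hbd l0 hl0 hIT
  have hP2' := hP2 T F hFull hRF l0 hl0 hbd hCone hRound
  have hP3' := hP3 T F hFull hRF l0 hl0 hbd hbdg hCone hP2'
  -- smoothness in space
  have hsm : ∀ t, 0 ≤ t → t < T → Sm (lamf (A t) (θ t)) ∧ Sm (e2f (A t) (θ t)) ∧
      Sm (ggf (A t) (lamf (A t) (θ t)) (lamf (A t) (θ t))) ∧
      (∀ a b c d, Sm (Rf (A t) (θ t) a b c d)) ∧
      ∀ x, x ≠ 0 → ∑ a, nfc (A t) a x ^ 2 = 1 := by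
    intro t h0 h1
    obtain ⟨-, -, -, k1, -, k2, -, k3, -, -, k4, k5, -⟩ := fh1 (A t) (θ t) (hfrm t ⟨h0, h1⟩)
    exact ⟨k2, k3, (k4 _ _ k2 k2).1, k1, k5⟩
  -- points of the bundle over `x`
  have hpt : ∀ x : EE n, x ≠ 0 → ∃ z : M.Z, M.pt z = (‖x‖⁻¹ : ℝ) • x ∧ M.fr z = one := by
    intro x hx
    refine hM.surj _ _ ?_ (one_mem n)
    rw [norm_smul, norm_inv, norm_norm, inv_mul_cancel₀ (norm_ne_zero_iff.2 hx)]
  have hr : ∀ x : EE n, x ≠ 0 → 0 < ‖x‖⁻¹ := fun x hx => inv_pos.2 (norm_pos_iff.2 hx)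
  have hdx : ∀ x : EE n, x ≠ 0 → ∃ z : F.Z, ∀ (t : ℝ) (h0 : 0 < t) (h1 : t < T),
      F.ev z ⟨t, h0, h1⟩ F.lam = lamf (A t) (θ t) x ∧
      F.ev z ⟨t, h0, h1⟩ F.e2 = e2f (A t) (θ t) x ∧
      F.ev z ⟨t, h0, h1⟩ (F.gg F.lam F.lam) =
        ggf (A t) (lamf (A t) (θ t)) (lamf (A t) (θ t)) x ∧
      ∀ a b c d, F.ev z ⟨t, h0, h1⟩ (F.R a b c d) = Rf (A t) (θ t) a b c d x := by
    intro x hx
    obtain ⟨z, hz1, hz2⟩ := hpt x hx
    refine ⟨z, fun t h0 h1 => ?_⟩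
    obtain ⟨s1, s2, s3, s4, -⟩ := hsm t h0.le h1
    obtain ⟨d1, d2, d3⟩ := hdic z ⟨t, h0, h1⟩
    refine ⟨?_, ?_, ?_, ?_⟩
    · rw [d1, hz1]
      exact s1.hom _ x (hr x hx)
    · rw [d2, hz1]
      exact s2.hom _ x (hr x hx)
    · rw [d3, hz1]
      exact s3.hom _ x (hr x hx)
    · intro a b c d
      rw [hdicR z ⟨t, h0, h1⟩ a b c d, hz1, hz2]
      have e1 : ∀ i j k l, Rf (A t) (θ t) i j k l ((‖x‖⁻¹ : ℝ) • x) = Rf (A t) (θ t) i j k l x :=
        fun i j k l => (s4 i j k l).hom _ x (hr x hx)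
      show ∑ i, ∑ j, ∑ k, ∑ l, one a i * one b j * one c k * one d l *
        Rf (A t) (θ t) i j k l ((‖x‖⁻¹ : ℝ) • x) = _
      simp only [e1, mul_assoc, ← Finset.mul_sum, sum_one]
  -- values at all points of the bundle
  have hzv : ∀ (z : F.Z) (t : TI T), ∃ x : EE n, x ≠ 0 ∧ F.ev z t F.lam = lamf (A t) (θ t) x ∧
      F.ev z t F.e2 = e2f (A t) (θ t) x := by
    intro z t
    refine ⟨M.pt z, ?_, (hdic z t).1, (hdic z t).2.1⟩
    intro h0
    have := hM.ptn z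
    rw [h0, norm_zero] at this
    exact zero_ne_one this
  have hp1 : ∀ t, 0 < t → t < T → ∀ x, x ≠ 0 → l0 ≤ lamf (A t) (θ t) x ∧
      ∀ a b c d, |Rf (A t) (θ t) a b c d x| ≤ CN * lamf (A t) (θ t) x := by
    intro t h0 h1 x hx
    obtain ⟨z, hz⟩ := hdx x hx
    obtain ⟨z1, -, -, z4⟩ := hz t h0 h1
    obtain ⟨c1, c2⟩ := hCone z ⟨t, h0, h1⟩
    rw [z1] at c1 c2
    refine ⟨c1, fun a b c d => ?_⟩
    rw [← z4]
    exact c2 a b c d
  refine ⟨?_, ?_, ?_, ?_, ?_⟩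
  · intro t h0 h1 x hx
    have key : l0 ≤ lamf (A t) (θ t) x ∧
        ∀ a b c d, |Rf (A t) (θ t) a b c d x| ≤ CN * lamf (A t) (θ t) x := by
      rcases h0.eq_or_lt with h0 | h0
      · subst h0
        exact ⟨(hin x hx).1, fun a b c d => limit_le hT (hfR a b c d) hfl' CN hx
          fun t h0 h1 => (hp1 t h0 h1 x hx).2 a b c d⟩
      · exact hp1 t h0 h1 x hx
    refine ⟨key.1, fun a b c d => (key.2 a b c d).trans ?_⟩
    exact mul_le_mul_of_nonneg_right (by linarith) (hl0.le.trans key.1)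
  · intro t h0 h1 x hx
    obtain ⟨q1, q2⟩ := hp1 t h0 h1 x hx
    refine (e2f_le hn (A t) (θ t) x ((hsm t h0.le h1).2.2.2.2 x hx) CN hCN (hl0.le.trans q1)
      q2).trans ?_
    exact mul_le_mul_of_nonneg_right (by linarith) (sq_nonneg _)
  · intro t Q h0 h1 hQ hY x hx
    obtain ⟨z, hz⟩ := hdx x hx
    obtain ⟨z1, z2, z3, -⟩ := hz t h0 h1
    have h := hP3' ⟨t, h0, h1⟩ Q (fun z => by
      obtain ⟨y, hy, hy1, -⟩ := hzv z ⟨t, h0, h1⟩
      rw [hy1]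
      exact hQ y hy) (by
        show Y0 ≤ t * Q
        linarith) z
    rw [z2, z3] at h
    have htQ : 0 < t * Q := by linarith
    have hQ0 : 0 < Q := by
      by_contra hc
      push Not at hc
      have : t * Q ≤ 0 := mul_nonpos_of_nonneg_of_nonpos h0.le hc
      linarith
    have hpw : 0 ≤ (t * Q) ^ (-σ) := (Real.rpow_pos_of_pos htQ _).le
    refine ⟨h.1.trans ?_, h.2.trans ?_⟩
    · have : 0 ≤ (t * Q) ^ (-σ) * Q ^ 3 := by positivity
      rw [mul_assoc, mul_assoc]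
      exact mul_le_mul_of_nonneg_right (by linarith) this
    · have : 0 ≤ (t * Q) ^ (-σ) * Q ^ 2 := by positivity
      rw [mul_assoc, mul_assoc]
      exact mul_le_mul_of_nonneg_right (by linarith) this
  · intro t1 m h0 h1 hm hlow
    have h := S2 n hn T F hFull hRF ⟨t1, h0, h1⟩ m hm (fun z => by
      obtain ⟨y, hy, hy1, -⟩ := hzv z ⟨t1, h0, h1⟩
      rw [hy1]
      exact hlow y hy)
    refine ⟨fun t h2 h3 x hx => ?_, h.2⟩
    obtain ⟨z, hz⟩ := hdx x hx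
    have h4 := h.1 z ⟨t, lt_of_lt_of_le h0 h2, h3⟩ h2
    rw [(hz t (lt_of_lt_of_le h0 h2) h3).1] at h4
    exact h4
  · intro t1 Q1 e h0 h1 hQ1 he hup hq hinf
    have h := hS3 T F hFull hRF ⟨t1, h0, h1⟩ Q1 e hQ1 he
      (fun z t _ => lt_of_lt_of_le hl0 (hCone z t).1)
      (fun z => by
        obtain ⟨y, hy, hy1, -⟩ := hzv z ⟨t1, h0, h1⟩
        rw [hy1]
        exact hup y hy)
      (fun z t htt => by
        obtain ⟨y, hy, hy1, hy2⟩ := hzv z t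
        rw [hy1, hy2]
        exact hq t htt t.2.2 y hy)
      (fun C t2 ht2 => by
        obtain ⟨t, x, h3, h4, h5, hx, h6⟩ := hinf C t2 ht2
        obtain ⟨z, hz⟩ := hdx x hx
        refine ⟨z, ⟨t, h3, h5⟩, h4, ?_⟩
        rw [(hz t h3 h5).1]
        exact h6)
    refine le_trans ?_ h
    have hTt : 0 < T - t1 := by linarith
    refine one_div_le_one_div_of_le ?_ ?_
    · show 0 < (2 + C2 * e) * (T - t1)
      positivity
    · show (2 + C2 * e) * (T - t1) ≤ (2 + C * e) * (T - t1)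
      refine mul_le_mul_of_nonneg_right ?_ hTt.le
      have : C2 * e ≤ C * e := mul_le_mul_of_nonneg_right (by linarith) he
      linarith

end Pool.Agent.Helper68.RFn.CON
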