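import Pool.Agent.Helper73.RFn.GoalsI

/-!
# Project RFn, packet EXC: bounded curvature bounds all word derivatives of the frame
-/

set_option autoImplicit false

open Finset Pool.Agent.Helper47.RFn Pool.Agent.Helper73.RFn

namespace Pool.Agent.Helper68.RFn.EXC

section WW

variable {n : ℕ} {T : ℝ} (F : FB n T)

/-- bounded -/
def Bdd (X : F.B) : Prop := ∃ C, ∀ z t, |F.ev z t X| ≤ C

/-- words of length at most `k` in `H`, `V` are bounded -/
def WW : ℕ → F.B → Prop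
  | 0, X => Bdd F X
  | k + 1, X => Bdd F X ∧ (∀ a, WW k (F.H a X)) ∧ ∀ c d, WW k (F.V c d X)

theorem Bdd_add {X Y : F.B} (h : Bdd F X) (h' : Bdd F Y) : Bdd F (X + Y) := by
  obtain ⟨C, hC⟩ := h
  obtain ⟨D, hD⟩ := h'
  refine ⟨C + D, fun z t => ?_⟩
  rw [map_add]
  exact (abs_add_le _ _).trans (add_le_add (hC z t) (hD z t))

theorem Bdd_smul {X : F.B} (c : ℝ) (h : Bdd F X) : Bdd F (c • X) := by
  obtain ⟨C, hC⟩ := h
  refine ⟨|c| * C, fun z t => ?_⟩
  rw [map_smul, smul_eq_mul, abs_mul]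
  exact mul_le_mul_of_nonneg_left (hC z t) (abs_nonneg _)

theorem Bdd_zero : Bdd F (0 : F.B) := ⟨0, fun z t => by simp⟩

/-- all words in `H`, `V` are bounded -/
def WI (X : F.B) : Prop := ∀ k, WW F k X

theorem WI_H {X : F.B} (h : WI F X) (a : Ix n) : WI F (F.H a X) := fun k => (h (k + 1)).2.1 a

theorem WI_V {X : F.B} (h : WI F X) (c d : Ix n) : WI F (F.V c d X) :=
  fun k => (h (k + 1)).2.2 c d

/-- the span of the derivatives of the curvature -/
def SM : Submodule ℝ F.B :=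
  Submodule.span ℝ {x | ∃ (w : List (Ix n)) (a b c d : Ix n), x = F.Hw w (F.R a b c d)}

theorem SM_gen (w : List (Ix n)) (a b c d : Ix n) : F.Hw w (F.R a b c d) ∈ SM F :=
  Submodule.subset_span ⟨w, a, b, c, d, rfl⟩

theorem SM_R (a b c d : Ix n) : F.R a b c d ∈ SM F := SM_gen F [] a b c d

theorem dl_mem (a b : Ix n) {x : F.B} (hx : x ∈ SM F) : F.dl a b * x ∈ SM F := by
  unfold FB.dl
  split_ifs
  · rw [one_mul]; exact hx
  · rw [zero_mul]; exact Submodule.zero_mem _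

theorem H_SM (a : Ix n) : ∀ x ∈ SM F, F.H a x ∈ SM F := by
  intro x hx
  refine Submodule.span_induction (p := fun x _ => F.H a x ∈ SM F) ?_ ?_ ?_ ?_ hx
  · rintro x ⟨w, i, j, k, l, rfl⟩
    exact SM_gen F (a :: w) i j k l
  · rw [map_zero]; exact Submodule.zero_mem _
  · intro x y _ _ h1 h2
    rw [map_add]; exact Submodule.add_mem _ h1 h2
  · intro c x _ h1
    rw [Derivation.map_smul]; exact Submodule.smul_mem _ c h1

theorem V_SM (hF : F.Full) (p q : Ix n) : ∀ x ∈ SM F, F.V p q x ∈ SM F := by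
  intro x hx
  refine Submodule.span_induction (p := fun x _ => F.V p q x ∈ SM F) ?_ ?_ ?_ ?_ hx
  · rintro x ⟨w, i, j, k, l, rfl⟩
    induction w with
    | nil =>
      change F.V p q (F.R i j k l) ∈ SM F
      rw [hF.VR]
      have h := fun (u v a b c d : Ix n) => dl_mem F u v (SM_R F a b c d)
      exact Submodule.sub_mem _ (Submodule.add_mem _ (Submodule.sub_mem _ (Submodule.add_mem _
        (Submodule.sub_mem _ (Submodule.add_mem _ (Submodule.sub_mem _ (h _ _ _ _ _ _)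
        (h _ _ _ _ _ _)) (h _ _ _ _ _ _)) (h _ _ _ _ _ _)) (h _ _ _ _ _ _)) (h _ _ _ _ _ _))
        (h _ _ _ _ _ _)) (h _ _ _ _ _ _)
    | cons a w ih =>
      change F.V p q (F.H a (F.Hw w (F.R i j k l))) ∈ SM F
      have h := hF.VH p q a (F.Hw w (F.R i j k l))
      rw [sub_eq_iff_eq_add.1 h]
      refine Submodule.add_mem _ (Submodule.sub_mem _ (dl_mem F _ _ ?_) (dl_mem F _ _ ?_))
        (H_SM F a _ ih)
      · exact SM_gen F (p :: w) i j k l
      · exact SM_gen F (q :: w) i j k l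
  · rw [map_zero]; exact Submodule.zero_mem _
  · intro x y _ _ h1 h2
    rw [map_add]; exact Submodule.add_mem _ h1 h2
  · intro c x _ h1
    rw [Derivation.map_smul]; exact Submodule.smul_mem _ c h1

theorem SM_Bdd (hb : ∀ w a b c d, Bdd F (F.Hw w (F.R a b c d))) : ∀ x ∈ SM F, Bdd F x := by
  intro x hx
  refine Submodule.span_induction (p := fun x _ => Bdd F x) ?_ ?_ ?_ ?_ hx
  · rintro x ⟨w, i, j, k, l, rfl⟩
    exact hb w i j k l
  · exact Bdd_zero F
  · exact fun x y _ _ => Bdd_add F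
  · exact fun c x _ => Bdd_smul F c

theorem SM_WI (hF : F.Full) (hb : ∀ w a b c d, Bdd F (F.Hw w (F.R a b c d))) :
    ∀ x ∈ SM F, WI F x := by
  intro x hx k
  induction k generalizing x with
  | zero => exact SM_Bdd F hb x hx
  | succ k ih => exact ⟨SM_Bdd F hb x hx, fun a => ih _ (H_SM F a x hx),
      fun c d => ih _ (V_SM F hF c d x hx)⟩

theorem Ric_SM (a c : Ix n) : F.Ric a c ∈ SM F :=
  Submodule.sum_mem _ fun b _ => SM_R F a b c b

theorem Y_SM (hR : F.IsRF) (a c d : Ix n) : F.Y a c d ∈ SM F := by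
  unfold FB.Y
  rw [hR, hR]
  exact Submodule.sub_mem _ (H_SM F _ _ (Ric_SM F _ _)) (H_SM F _ _ (Ric_SM F _ _))

end WW

section JSS

variable {n : ℕ} {T : ℝ} {u v : ℝ → EE n → ℝ}

theorem JSmul (hu : Pool.Agent.Helper73.RFn.JS T u) (hv : Pool.Agent.Helper73.RFn.JS T v) :
    Pool.Agent.Helper73.RFn.JS T (fun t x => u t x * v t x) :=
  ⟨hu.cd.mul hv.cd, fun t h1 h2 r x hr => by
    rw [hu.hom t h1 h2 r x hr, hv.hom t h1 h2 r x hr]⟩

theorem JSadd (hu : Pool.Agent.Helper73.RFn.JS T u) (hv : Pool.Agent.Helper73.RFn.JS T v) :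
    Pool.Agent.Helper73.RFn.JS T (fun t x => u t x + v t x) :=
  ⟨hu.cd.add hv.cd, fun t h1 h2 r x hr => by
    rw [hu.hom t h1 h2 r x hr, hv.hom t h1 h2 r x hr]⟩

theorem JSneg (hu : Pool.Agent.Helper73.RFn.JS T u) :
    Pool.Agent.Helper73.RFn.JS T (fun t x => - u t x) :=
  ⟨hu.cd.neg, fun t h1 h2 r x hr => by rw [hu.hom t h1 h2 r x hr]⟩

theorem JSconst (c : ℝ) : Pool.Agent.Helper73.RFn.JS T (fun _ (_ : EE n) => c) :=
  ⟨contDiffOn_const, fun _ _ _ _ _ _ => rfl⟩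

theorem Ew_congr {f g : EE n → ℝ} (h : ∀ x, x ≠ 0 → f x = g x) (w : List (Fin (n + 1))) :
    ∀ x, x ≠ 0 → Ew w f x = Ew w g x := by
  induction w with
  | nil => exact h
  | cons i w ih =>
    intro x hx
    change ‖x‖ * fderiv ℝ (Ew w f) x (EuclideanSpace.single i 1) =
      ‖x‖ * fderiv ℝ (Ew w g) x (EuclideanSpace.single i 1)
    have : Ew w f =ᶠ[nhds x] Ew w g := by
      filter_upwards [isOpen_compl_singleton.mem_nhds (show x ∈ ({0}ᶜ : Set (EE n)) from hx)]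
        with y hy
      exact ih y hy
    rw [this.fderiv_eq]

theorem BW_congr {m : ℕ} (h : ∀ t, 0 < t → t < T → ∀ x, x ≠ 0 → u t x = v t x) (hu : BW T m u) :
    BW T m v := by
  intro w hw
  obtain ⟨C, hC⟩ := hu w hw
  refine ⟨C, fun t h1 h2 x hx => ?_⟩
  rw [← Ew_congr (h t h1 h2) w x hx]
  exact hC t h1 h2 x hx

/-- smooth with bounded words -/
structure GG {n : ℕ} (T : ℝ) (m : ℕ) (u : ℝ → EE n → ℝ) : Prop where
  js : Pool.Agent.Helper73.RFn.JS T u
  bw : BW T m u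

theorem GGmul (hB : BwrStmt) {m : ℕ} (hu : GG T m u) (hv : GG T m v) :
    GG T m (fun t x => u t x * v t x) :=
  ⟨JSmul hu.js hv.js, ((hB n T m u v hu.js hv.js).1 hu.bw hv.bw).1⟩

theorem GGadd (hB : BwrStmt) {m : ℕ} (hu : GG T m u) (hv : GG T m v) :
    GG T m (fun t x => u t x + v t x) :=
  ⟨JSadd hu.js hv.js, ((hB n T m u v hu.js hv.js).1 hu.bw hv.bw).2.1⟩

theorem GGneg (hB : BwrStmt) {m : ℕ} (hu : GG T m u) : GG T m (fun t x => - u t x) :=
  ⟨JSneg hu.js, ((hB n T m u u hu.js hu.js).1 hu.bw hu.bw).2.2.2⟩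

theorem GGconst (hB : BwrStmt) (m : ℕ) (c : ℝ) : GG T m (fun _ (_ : EE n) => c) :=
  ⟨JSconst c, (hB n T m _ _ (JSconst 0) (JSconst 0)).2.1 c⟩

theorem GGsum (hB : BwrStmt) {m : ℕ} {ι : Type} (s : Finset ι) (u : ι → ℝ → EE n → ℝ)
    (h : ∀ i ∈ s, GG T m (u i)) : GG T m (fun t x => ∑ i ∈ s, u i t x) := by
  classical
  induction s using Finset.induction_on with
  | empty => simpa using GGconst (n := n) (T := T) hB m 0
  | insert i s hi ih =>
    simp only [Finset.sum_insert hi]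
    exact GGadd hB (h i (Finset.mem_insert_self i s))
      (ih fun j hj => h j (Finset.mem_insert_of_mem hj))

/-- bounds near the time `0` -/
theorem near0 (hC1 : Goal_C1) (hT : 0 < T) (hu : SmFam (Set.Ico 0 T) u)
    (w : List (Fin (n + 1))) :
    ∃ C t0 : ℝ, 0 < t0 ∧ t0 < T ∧ ∀ t, 0 < t → t < t0 → ∀ x, x ≠ 0 → |Ew w (u t) x| ≤ C := by
  have hcomp : IsCompact (Set.Icc (0 : ℝ) (T / 2) ×ˢ Metric.sphere (0 : EE n) 1) :=
    isCompact_Icc.prod (isCompact_sphere _ _)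
  have hc : ContinuousOn (fun p : ℝ × EE n => Ew w (u p.1) p.2)
      (Set.Icc (0 : ℝ) (T / 2) ×ˢ Metric.sphere (0 : EE n) 1) := by
    refine (hu.cont w).mono ?_
    rintro ⟨t, x⟩ ⟨h1, h2⟩
    refine ⟨⟨h1.1, lt_of_le_of_lt h1.2 (by linarith)⟩, ?_⟩
    rw [mem_sphere_zero_iff_norm] at h2
    intro h3
    rw [Set.mem_singleton_iff] at h3
    rw [h3, norm_zero] at h2
    exact zero_ne_one h2
  obtain ⟨C, hC⟩ := hcomp.exists_bound_of_continuousOn hc
  refine ⟨C, T / 2, by linarith, by linarith, fun t h1 h2 x hx => ?_⟩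
  have hn : 0 < ‖x‖ := norm_pos_iff.2 hx
  have hsm : Sm (u t) := hu.sm t ⟨h1.le, by linarith⟩
  have hE : Sm (Ew w (u t)) := (hC1 n).2.2.2.2.2.2.2.2.2.2.1 (u t) w hsm
  rw [← hE.hom ‖x‖⁻¹ x (inv_pos.2 hn)]
  refine hC (t, (‖x‖⁻¹ : ℝ) • x) ⟨⟨h1.le, h2.le⟩, ?_⟩
  rw [mem_sphere_zero_iff_norm, norm_smul, norm_inv, norm_norm, inv_mul_cancel₀ hn.ne']

/-- the connection coefficients are a smooth family -/
theorem smGam (hC8 : Goal_C8) (hFHM : FhmStmt) {I : Set ℝ} {A θ : ℝ → MF n} (hfl : FFlow I A θ)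
    (a b c : Fin (n + 1)) : SmFam I (fun t => Gamc (A t) (θ t) a b c) := by
  obtain ⟨k1, k2, k3, k4, -, k6, -, k8, -, -⟩ := hC8 n I
  have hA : ∀ a i, SmFam I (fun t x => A t x a i) := fun a i => (hfl.flA a i).fam
  have hθ : ∀ i a, SmFam I (fun t x => θ t x i a) := fun i a => (hfl.flt i a).fam
  have hnf : ∀ a, SmFam I (fun t => nfc (A t) a) := ((hFHM n).2 I A θ hfl).2.2.2.2.2.2.1
  have hk : ∀ c : ℝ, SmFam I (fun _ (_ : EE n) => c) := fun c => k1 _ continuousOn_const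
  have hF : ∀ a b j, SmFam I (fun t => Fdc (A t) a (fun y => A t y b j)) := fun a b j =>
    k8 _ Finset.univ (fun i t x => A t x a i * ed i (fun y => A t y b j) x) fun i _ =>
      k4 _ _ (hA a i) (k6 _ i (hA b j))
  have hCc : ∀ a b c, SmFam I (fun t => Cc (A t) (θ t) a b c) := fun a b c =>
    k2 _ _ (k8 _ Finset.univ (fun j t x => (Fdc (A t) a (fun y => A t y b j) x -
      Fdc (A t) b (fun y => A t y a j) x) * θ t x j c) fun j _ =>
        k4 _ _ (k3 _ _ (hF a b j) (hF b a j)) (hθ j c))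
      (k3 _ _ (k4 _ _ (hnf a) (hk (if b = c then 1 else 0)))
        (k4 _ _ (hnf b) (hk (if a = c then 1 else 0))))
  exact k4 _ _ (hk (1 / 2)) (k2 _ _ (k3 _ _ (hCc a b c) (hCc b c a)) (hCc c a b))

end JSS

/-- the curvature of the bundle is bounded -/
theorem R_bd {n : ℕ} {K : ℝ} (f : Ix n → Ix n → ℝ) (hf : f ∈ OO n)
    (R : Ix n → Ix n → Ix n → Ix n → ℝ) (hR : ∀ i j k l, |R i j k l| ≤ K) (a b c d : Ix n) :
    |∑ i, ∑ j, ∑ k, ∑ l, f a i * f b j * f c k * f d l * R i j k l| ≤ ((n : ℝ) + 1) ^ 4 * K := by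
  have hK0 : 0 ≤ K := (abs_nonneg _).trans (hR 0 0 0 0)
  have hf1 : ∀ a i, |f a i| ≤ 1 := by
    intro a i
    have h1 := hf a a
    rw [if_pos rfl] at h1
    refine abs_le_one_iff_mul_self_le_one.2 ?_
    rw [← h1]
    exact Finset.single_le_sum (f := fun c => f a c * f a c) (fun c _ => mul_self_nonneg _)
      (Finset.mem_univ i)
  have hterm : ∀ i j k l, |f a i * f b j * f c k * f d l * R i j k l| ≤ K := by
    intro i j k l
    rw [abs_mul, abs_mul, abs_mul, abs_mul]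
    have h1 : |f a i| * |f b j| ≤ 1 := mul_le_one₀ (hf1 a i) (abs_nonneg _) (hf1 b j)
    have h2 : |f a i| * |f b j| * |f c k| ≤ 1 := mul_le_one₀ h1 (abs_nonneg _) (hf1 c k)
    have h3 : |f a i| * |f b j| * |f c k| * |f d l| ≤ 1 := mul_le_one₀ h2 (abs_nonneg _) (hf1 d l)
    calc _ ≤ 1 * K := mul_le_mul h3 (hR i j k l) (abs_nonneg _) zero_le_one
      _ = K := one_mul K
  calc _ ≤ ∑ i : Ix n, ∑ j : Ix n, ∑ k : Ix n, ∑ l : Ix n, K :=
        (Finset.abs_sum_le_sum_abs _ _).trans (Finset.sum_le_sum fun i _ =>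
          (Finset.abs_sum_le_sum_abs _ _).trans (Finset.sum_le_sum fun j _ =>
            (Finset.abs_sum_le_sum_abs _ _).trans (Finset.sum_le_sum fun k _ =>
              (Finset.abs_sum_le_sum_abs _ _).trans (Finset.sum_le_sum fun l _ =>
                hterm i j k l))))
    _ = ((n : ℝ) + 1) ^ 4 * K := by
        simp only [Finset.sum_const, Finset.card_univ, Fintype.card_fin, nsmul_eq_mul]
        push_cast
        ring

theorem excP : ExcPStmt := by
  intro hMOD hLNK hFLB hATO hNRO hCBB hC1 hC8 hFJS hFHM hBWR hBWG n T A θ _ hT hfl K hK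
  have hsub : Set.Ioo 0 T ⊆ Set.Ico 0 T := Set.Ioo_subset_Ico_self
  obtain ⟨M, hM⟩ := hMOD n T hT
  obtain ⟨hA, hθ, hR⟩ := hFJS n T _ A θ hT hsub hfl
  have hA' : MJ T A := fun i j => ⟨(hA i j).cd, (hA i j).hom⟩
  have hθ' : MJ T θ := fun i j => ⟨(hθ i j).cd, (hθ i j).hom⟩
  obtain ⟨-, hFull, hRF, -, hdicR, -, -⟩ := hFLB n T hT M hM _ A θ hsub hfl hA' hθ'
  obtain ⟨hbdR, -⟩ := hNRO n T hT M hM A θ hfl hA' hθ'
  obtain ⟨a1, -, -, -, a5, a6⟩ := hATO n T hT M hM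
  obtain ⟨-, b2, b3, b4⟩ := a6 _ A θ hsub hfl hA' hθ'
  obtain ⟨-, -, l3, -, -, -⟩ := hLNK n T hT M hM A θ hA' hθ'
  have hpt0 : ∀ z, M.pt z ≠ 0 := by
    intro z h0
    have := hM.ptn z
    rw [h0, norm_zero] at this
    exact zero_ne_one this
  -- bounds for all derivatives of the curvature
  have hbd : ∀ z t a b c d, |(M.flB A θ).ev z t ((M.flB A θ).R a b c d)| ≤
      ((n : ℝ) + 1) ^ 4 * K := by
    intro z t a b c d
    rw [hdicR z t a b c d]
    exact R_bd (M.fr z) (hM.frO z) (fun i j k l => Rf (A t) (θ t) i j k l (M.pt z))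
      (fun i j k l => hK t t.2.1.le t.2.2 _ (hpt0 z) i j k l) a b c d
  have hb : ∀ w a b c d, Bdd (M.flB A θ) ((M.flB A θ).Hw w ((M.flB A θ).R a b c d)) :=
    hCBB n T (M.flB A θ) hFull hRF _ hbd hbdR
  have hat : ∀ X : M.B, Pool.Agent.Helper73.RFn.JS T (M.at1 X) := fun X =>
    ⟨(a1 X).1.cd, (a1 X).1.hom⟩
  have hRe : ∀ a b, Pool.Agent.Helper73.RFn.JS T (fun t x => Rcf (A t) (θ t) a b x) :=
    fun a b => hR a b
  have hGe : ∀ a b c, Pool.Agent.Helper73.RFn.JS T (fun t x => Gamc (A t) (θ t) a b c x) :=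
    fun a b c => ⟨(l3 a b c).1.cd, (l3 a b c).1.hom⟩
  have hbdd : ∀ X : M.B, WI (M.flB A θ) X → BW T 0 (M.at1 X) := by
    intro X hX w hw
    have hw' : w = [] := List.length_eq_zero_iff.1 (Nat.le_zero.1 hw)
    subst hw'
    obtain ⟨C, hC⟩ := hX 0
    exact ⟨C, fun t h1 h2 x hx => a5 X C hC t x h1 h2 hx⟩
  have hderA : ∀ a i t, 0 < t → t < T → ∀ x, x ≠ 0 → HasDerivAt (fun r => A r x a i)
      (∑ b, Rcf (A t) (θ t) a b x * A t x b i) t := by
    intro a i t h1 h2 x hx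
    exact ((hfl.flA a i).der [] x hx t ⟨h1.le, h2⟩).hasDerivAt (Ico_mem_nhds h1 h2)
  have hdert : ∀ i a t, 0 < t → t < T → ∀ x, x ≠ 0 → HasDerivAt (fun r => θ r x i a)
      (-∑ b, θ t x i b * Rcf (A t) (θ t) b a x) t := by
    intro i a t h1 h2 x hx
    exact ((hfl.flt i a).der [] x hx t ⟨h1.le, h2⟩).hasDerivAt (Ico_mem_nhds h1 h2)
  -- the two steps
  have stepA : ∀ m, (∀ X : M.B, WI (M.flB A θ) X → BW T m (M.at1 X)) →
      (∀ a i, BW T m (fun t x => A t x a i)) ∧ (∀ i a, BW T m (fun t x => θ t x i a)) ∧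
      (∀ b c d, BW T m (fun t x => Gamc (A t) (θ t) b c d x)) ∧
      ∀ a b, BW T m (fun t x => Rcf (A t) (θ t) a b x) := by
    intro m hm
    have hRicb : ∀ a b, BW T m (fun t x => Rcf (A t) (θ t) a b x) := fun a b =>
      BW_congr (fun t h1 h2 x hx => b2 a b t x h1 h2 hx)
        (hm _ (SM_WI (M.flB A θ) hFull hb _ (Ric_SM (M.flB A θ) a b)))
    have h0 : BW T m (fun _ (_ : EE n) => (0 : ℝ)) := (GGconst hBWR m 0).bw
    refine ⟨fun a i => ?_, fun i a => ?_, fun b c d => ?_, hRicb⟩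
    · refine hBWG n T m (n + 1) (fun a t x => A t x a i) (fun a b t x => Rcf (A t) (θ t) a b x)
        (fun _ _ _ => 0) hT (fun a => hA a i) hRe (fun _ => JSconst 0) hRicb (fun _ => h0)
        (fun a t h1 h2 x hx => ?_) (fun a w => near0 hC1 hT (hfl.flA a i).fam w) a
      simpa using hderA a i t h1 h2 x hx
    · refine hBWG n T m (n + 1) (fun a t x => θ t x i a)
        (fun a b t x => -Rcf (A t) (θ t) b a x)
        (fun _ _ _ => 0) hT (fun a => hθ i a) (fun a b => JSneg (hRe b a)) (fun _ => JSconst 0)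
        (fun a b => (GGneg hBWR ⟨hRe b a, hRicb b a⟩).bw) (fun _ => h0)
        (fun a t h1 h2 x hx => ?_) (fun a w => near0 hC1 hT (hfl.flt i a).fam w) a
      refine (hdert i a t h1 h2 x hx).congr_deriv ?_
      rw [add_zero, ← Finset.sum_neg_distrib]
      exact Finset.sum_congr rfl fun b _ => by ring
    · refine hBWG n T m (n + 1) (fun b t x => Gamc (A t) (θ t) b c d x)
        (fun a b t x => Rcf (A t) (θ t) a b x)
        (fun b t x => M.at1 ((M.flB A θ).Y b c d) t x) hT (fun b => hGe b c d) hRe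
        (fun b => hat _) hRicb
        (fun b => hm _ (SM_WI (M.flB A θ) hFull hb _ (Y_SM (M.flB A θ) hRF b c d)))
        (fun b t h1 h2 x hx => b4 b c d t x h1 h2 hx)
        (fun b w => near0 hC1 hT (smGam hC8 hFHM hfl b c d) w) b
  have main : ∀ m, ∀ X : M.B, WI (M.flB A θ) X → BW T m (M.at1 X) := by
    intro m
    induction m with
    | zero => exact hbdd
    | succ m ih =>
      intro X hX
      obtain ⟨-, hθb, hGb, -⟩ := stepA m ih
      refine (hBWR n T m (M.at1 X) (M.at1 X) (hat X) (hat X)).2.2.2.1 (hbdd X hX) fun i => ?_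
      have hG : GG T m (fun t x => ∑ b, θ t x i b *
          (M.at1 ((M.flB A θ).H b X) t x + -((1 / 2 : ℝ) * ∑ c, ∑ d,
            Gamc (A t) (θ t) b c d x * M.at1 (M.V c d X) t x))) := by
        refine GGsum hBWR _ (fun b t x => θ t x i b *
          (M.at1 ((M.flB A θ).H b X) t x + -((1 / 2 : ℝ) * ∑ c, ∑ d,
            Gamc (A t) (θ t) b c d x * M.at1 (M.V c d X) t x))) fun b _ => ?_
        refine GGmul hBWR ⟨hθ i b, hθb i b⟩ (GGadd hBWR ⟨hat _, ih _ (WI_H _ hX b)⟩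
          (GGneg hBWR (GGmul hBWR (GGconst hBWR m _) ?_)))
        refine GGsum hBWR _ (fun c t x => ∑ d, Gamc (A t) (θ t) b c d x *
          M.at1 (M.V c d X) t x) fun c _ => ?_
        refine GGsum hBWR _ (fun d t x => Gamc (A t) (θ t) b c d x *
          M.at1 (M.V c d X) t x) fun d _ => ?_
        exact GGmul hBWR ⟨hGe b c d, hGb b c d⟩ ⟨hat _, ih _ (WI_V (M.flB A θ) hX c d)⟩
      refine BW_congr (fun t h1 h2 x hx => ?_) hG.bw
      rw [b3 X i t x h1 h2 hx]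
      refine Finset.sum_congr rfl fun b _ => ?_
      rw [← sub_eq_add_neg]
  intro m
  obtain ⟨h1, h2, -, h3⟩ := stepA m (main m)
  exact ⟨h1, h2, h3⟩

end Pool.Agent.Helper68.RFn.EXC
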